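import Mathlib
import Pool.Agent.LeoD.LocStmts

/-!
# DENB: the residue classes of the forms of the type
-/

set_option autoImplicit false

open NumberField IsDedekindDomain Module
open Pool.Agent.LeoK Pool.Agent.LeoG Pool.Agent.LeoC

open scoped Classical

namespace Pool.Agent.LeoD.H68

lemma prod3 (vpi : VpiStmt) {k : Type} [Field k] [NumberField k] (B : BFr k)
    (Q : Finset (HeightOneSpectrum (𝓞 k)))
    (hQ : ∀ p : HeightOneSpectrum (𝓞 k), (6 * B.b : 𝓞 k) ∈ p.asIdeal → p ∈ Q) :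
    ∏ p ∈ Q, np p ^ ordp p (Ideal.span {(3 : 𝓞 k)}) = 3 ^ finrank ℚ k := by
  obtain ⟨-, -, -, v4, -⟩ := vpi k
  have h5 : (3 : 𝓞 k) = ((3 : ℕ) : 𝓞 k) := by norm_num
  rw [← v4 (Ideal.span {(3 : 𝓞 k)}) Q ?_ ?_]
  · rw [h5, Ideal.absNorm_span_natCast]
    push_cast
    rw [RingOfIntegers.rank]
  · rw [ne_eq, Ideal.span_singleton_eq_bot]
    norm_num
  · intro p hp
    apply hQ
    have h5 : (3 : 𝓞 k) ∈ p.asIdeal := hp (Ideal.mem_span_singleton_self (3 : 𝓞 k))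
    have h6 : (6 * B.b : 𝓞 k) = (2 * B.b) * 3 := by ring
    rw [h6]
    exact Ideal.mul_mem_left _ _ h5

lemma prodb (vpi : VpiStmt) (bfn : BfnStmt) {k : Type} [Field k] [NumberField k] (B : BFr k)
    (Q : Finset (HeightOneSpectrum (𝓞 k)))
    (hQ : ∀ p : HeightOneSpectrum (𝓞 k), (6 * B.b : 𝓞 k) ∈ p.asIdeal → p ∈ Q) :
    ∏ p ∈ Q, np p ^ ordp p (Ideal.span {(B.b : 𝓞 k)}) = (B.b : ℝ) ^ finrank ℚ k := by
  obtain ⟨-, -, -, v4, -⟩ := vpi k
  obtain ⟨b0, b1, -⟩ := bfn k B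
  have hbk : (B.b : 𝓞 k) ≠ 0 := Nat.cast_ne_zero.2 b0.ne'
  rw [← v4 (Ideal.span {(B.b : 𝓞 k)}) Q ?_ ?_]
  · rw [Ideal.absNorm_span_natCast]
    push_cast
    rw [RingOfIntegers.rank]
  · rw [ne_eq, Ideal.span_singleton_eq_bot]
    exact hbk
  · intro p hp
    apply hQ
    have h5 : (B.b : 𝓞 k) ∈ p.asIdeal := hp (Ideal.mem_span_singleton_self (B.b : 𝓞 k))
    exact Ideal.mul_mem_left _ _ h5

lemma prodbb (vpi : VpiStmt) (bfn : BfnStmt) {k : Type} [Field k] [NumberField k] (B : BFr k)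
    (Q : Finset (HeightOneSpectrum (𝓞 k)))
    (hQ : ∀ p : HeightOneSpectrum (𝓞 k), (6 * B.b : 𝓞 k) ∈ p.asIdeal → p ∈ Q) :
    ∏ p ∈ Q, np p ^ ordp p B.bb = (B.b : ℝ) := by
  obtain ⟨-, -, -, v4, -⟩ := vpi k
  obtain ⟨b0, b1, -⟩ := bfn k B
  have h6 : (B.b : 𝓞 k) ∈ B.bb := by
    have h5 : (B.b : 𝓞 k) ∈ B.bb * B.cc := by
      rw [B.mul]
      exact Ideal.mem_span_singleton_self (B.b : 𝓞 k)
    exact Ideal.mul_le_left h5
  rw [← v4 B.bb Q b1 ?_, ← B.nrm]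
  intro p hp
  apply hQ
  exact Ideal.mul_mem_left _ _ (hp h6)

/-- **DENB**. -/
theorem denb (ld6 : Ld6Stmt) (ldt : LdtStmt) (lde : LdeStmt) (ldn : LdnStmt) (crd : CrdStmt)
    (vpi : VpiStmt) (bfn : BfnStmt) : DenbStmt := by
  intro k _ _ M h hM hh B E Q hQ
  have hloc : ∀ p, LocDen M h B E p := by
    intro p
    by_cases h3 : (3 : 𝓞 k) ∈ p.asIdeal
    · by_cases hE : p ∈ E
      · exact lde k M h B E p hM (hh p h3) h3 hE
      · exact ldn k M h B E p hM (hh p h3) h3 hE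
    · by_cases h2 : (2 : 𝓞 k) ∈ p.asIdeal
      · exact ldt k M h B E p h2
      · apply ld6 k M h B E p
        intro h6
        have h23 : (6 : 𝓞 k) = 2 * 3 := by norm_num
        rw [h23] at h6
        rcases p.isPrime.mem_or_mem h6 with h | h
        · exact h2 h
        · exact h3 h
  choose a S hS hc using hloc
  let T : HeightOneSpectrum (𝓞 k) → Set (Fin 4 → 𝓞 k) := fun p =>
    {F | modQ (p.asIdeal ^ a p) F ∈ S p}
  have hT : ∀ p ∈ Q, ∀ v ∈ T p, ∀ v' : Fin 4 → 𝓞 k, (∀ i, v i - v' i ∈ p.asIdeal ^ a p) →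
      v' ∈ T p := by
    intro p _ v hv v' hvv
    have heq : modQ (p.asIdeal ^ a p) v' = modQ (p.asIdeal ^ a p) v := by
      funext i
      exact (Ideal.Quotient.eq.2 (hvv i)).symm
    change modQ (p.asIdeal ^ a p) v' ∈ S p
    rw [heq]
    exact hv
  have hcrd := crd k Q a (Fin 4) T hT
  obtain ⟨v1, v2, v3, v4, v5, v6, v7⟩ := vpi k
  obtain ⟨b0, b1, b2, b3, b4, b5⟩ := bfn k B
  have hbk : (B.b : 𝓞 k) ≠ 0 := Nat.cast_ne_zero.2 b0.ne'
  have hpos : ∀ p : HeightOneSpectrum (𝓞 k), 0 < np p := fun p => by linarith [v6 p]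
  refine ⟨∏ p ∈ Q, p.asIdeal ^ a p,
    (fun (v : Fin 4 → 𝓞 k) (i : Fin 4) => Ideal.Quotient.mk (∏ p ∈ Q, p.asIdeal ^ a p) (v i)) ''
      {v | ∀ p ∈ Q, v ∈ T p}, ?_, ?_, ?_⟩
  · exact Finset.prod_ne_zero_iff.2 fun p _ => pow_ne_zero _ p.ne_bot
  · intro F m hF hm hf he
    exact ⟨F, fun p _ => hS p F m hF hm hf (he p), rfl⟩
  · rw [hcrd]
    push_cast
    have hnp : (Ideal.absNorm (∏ p ∈ Q, p.asIdeal ^ a p) : ℝ) = ∏ p ∈ Q, np p ^ a p := by
      rw [map_prod]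
      push_cast
      refine Finset.prod_congr rfl fun p _ => ?_
      rw [map_pow]
      push_cast
      rfl
    rw [hnp, ← Finset.prod_pow, ← Finset.prod_div_distrib]
    have hle : ∏ p ∈ Q, ((((fun (v : Fin 4 → 𝓞 k) (i : Fin 4) =>
        Ideal.Quotient.mk (p.asIdeal ^ a p) (v i)) '' T p).ncard : ℝ) / (np p ^ a p) ^ 4) ≤
        ∏ p ∈ Q, dD B E p := by
      refine Finset.prod_le_prod (fun p _ => by have := hpos p; positivity) fun p _ => ?_
      have hfin : Finite (𝓞 k ⧸ p.asIdeal ^ a p) :=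
        Ideal.finiteQuotientOfFreeOfNeBot _ (pow_ne_zero (a p) p.ne_bot)
      have hsub : (fun (v : Fin 4 → 𝓞 k) (i : Fin 4) =>
        Ideal.Quotient.mk (p.asIdeal ^ a p) (v i)) '' T p ⊆ S p := by
        rintro _ ⟨v, hv, rfl⟩
        exact hv
      have h1 : ((((fun (v : Fin 4 → 𝓞 k) (i : Fin 4) =>
        Ideal.Quotient.mk (p.asIdeal ^ a p) (v i)) '' T p).ncard : ℝ)) ≤ ((S p).ncard : ℝ) := by
        exact_mod_cast Set.ncard_le_ncard hsub (Set.toFinite _)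
      have h2 : 0 < (np p ^ a p) ^ 4 := by have := hpos p; positivity
      rw [div_le_iff₀ h2]
      refine (h1.trans (hc p)).trans (le_of_eq ?_)
      rw [← pow_mul, mul_comm (a p) 4]
      ring
    refine hle.trans (le_of_eq ?_)
    have e1 := prod3 vpi B Q hQ
    have e2 := prodb vpi bfn B Q hQ
    have e3 := prodbb vpi bfn B Q hQ
    have e4 : ∀ p, dD B E p = (1 - 1 / np p ^ 2) * dE E p *
        ((np p ^ ordp p B.bb) ^ 2 / ((np p ^ ordp p (Ideal.span {(3 : 𝓞 k)})) ^ 8 *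
          (np p ^ ordp p (Ideal.span {(B.b : 𝓞 k)})) ^ 8)) := by
      intro p
      rw [dD, ← pow_mul, ← pow_mul, ← pow_mul, ← pow_add, mul_comm (ordp p B.bb) 2,
        mul_comm (ordp p (Ideal.span {(3 : 𝓞 k)})) 8,
        mul_comm (ordp p (Ideal.span {(B.b : 𝓞 k)})) 8]
    rw [Finset.prod_congr rfl fun p _ => e4 p, Finset.prod_mul_distrib, Finset.prod_mul_distrib,
      Finset.prod_div_distrib, Finset.prod_mul_distrib, Finset.prod_pow, Finset.prod_pow,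
      Finset.prod_pow, e1, e2, e3, ← pow_mul, ← pow_mul, mul_comm (finrank ℚ k) 8]

end Pool.Agent.LeoD.H68
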