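import Mathlib
import Pool.Agent.LeoD.LocStmts

/-!
# VPI: exponents and uniformizers
-/

set_option autoImplicit false

open NumberField IsDedekindDomain Module
open Pool.Agent.LeoK Pool.Agent.LeoG Pool.Agent.LeoC

open scoped Classical

namespace Pool.Agent.LeoD.H68

variable {k : Type} [Field k] [NumberField k]

lemma le_pow_iff (p : HeightOneSpectrum (𝓞 k)) (I : Ideal (𝓞 k)) (n : ℕ) (hI : I ≠ ⊥) :
    I ≤ p.asIdeal ^ n ↔ n ≤ ordp p I := by
  rw [ordp, ← Ideal.dvd_iff_le, ← Associates.mk_le_mk_iff_dvd, Associates.mk_pow]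
  exact Associates.prime_pow_dvd_iff_le (Associates.mk_ne_zero.2 hI) p.associates_irreducible

lemma ordp_mul (p : HeightOneSpectrum (𝓞 k)) (I J : Ideal (𝓞 k)) (hI : I ≠ ⊥) (hJ : J ≠ ⊥) :
    ordp p (I * J) = ordp p I + ordp p J := by
  rw [ordp, ordp, ordp, ← Associates.mk_mul_mk]
  exact Associates.count_mul (Associates.mk_ne_zero.2 hI) (Associates.mk_ne_zero.2 hJ)
    p.associates_irreducible

lemma span_ne {x : 𝓞 k} (hx : x ≠ 0) : (Ideal.span {x} : Ideal (𝓞 k)) ≠ ⊥ := by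
  rwa [Ne, Ideal.span_singleton_eq_bot]

lemma mem_pow_iff (p : HeightOneSpectrum (𝓞 k)) (x : 𝓞 k) (n : ℕ) (hx : x ≠ 0) :
    x ∈ p.asIdeal ^ n ↔ n ≤ ordp p (Ideal.span {x}) := by
  rw [← le_pow_iff p _ n (span_ne hx), Ideal.span_singleton_le_iff_mem]

lemma mul_mem_iff (p : HeightOneSpectrum (𝓞 k)) (x y : 𝓞 k) (n : ℕ) (hx : x ≠ 0) :
    x * y ∈ p.asIdeal ^ (ordp p (Ideal.span {x}) + n) ↔ y ∈ p.asIdeal ^ n := by
  by_cases hy : y = 0
  · subst hy
    simp
  · rw [mem_pow_iff p _ _ (mul_ne_zero hx hy), mem_pow_iff p _ _ hy,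
      ← Ideal.span_singleton_mul_span_singleton, ordp_mul p _ _ (span_ne hx) (span_ne hy)]
    omega

lemma absNorm_prod (I : Ideal (𝓞 k)) (Q : Finset (HeightOneSpectrum (𝓞 k))) (hI : I ≠ ⊥)
    (hQ : ∀ p : HeightOneSpectrum (𝓞 k), I ≤ p.asIdeal → p ∈ Q) :
    (Ideal.absNorm I : ℝ) = ∏ p ∈ Q, np p ^ ordp p I := by
  have h1 := Ideal.finprod_heightOneSpectrum_factorization (R := 𝓞 k) (I := I) hI
  have h2 : I = ∏ p ∈ Q, p.asIdeal ^ ordp p I := by
    conv_lhs => rw [← h1]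
    apply finprod_eq_prod_of_mulSupport_subset
    intro p hp
    rw [Function.mem_mulSupport] at hp
    rw [Finset.mem_coe]
    apply hQ
    by_contra h3
    apply hp
    have h4 : ordp p I = 0 := by
      by_contra h5
      apply h3
      have := (le_pow_iff p I 1 hI).2 (by omega)
      rwa [pow_one] at this
    change p.asIdeal ^ ordp p I = 1
    rw [h4, pow_zero]
  conv_lhs => rw [h2]
  rw [map_prod]
  push_cast
  apply Finset.prod_congr rfl
  intro p _
  rw [map_pow]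
  push_cast
  rfl

lemma two_le_np (p : HeightOneSpectrum (𝓞 k)) : 2 ≤ np p := by
  have h1 : 1 < Ideal.absNorm p.asIdeal := NumberField.HeightOneSpectrum.one_lt_absNorm p
  unfold np
  exact_mod_cast h1

lemma ordp_three (p : HeightOneSpectrum (𝓞 k)) :
    ordp p (Ideal.span {(3 : 𝓞 k)}) ≤ finrank ℚ k := by
  by_cases h0 : ordp p (Ideal.span {(3 : 𝓞 k)}) = 0
  · rw [h0]; exact Nat.zero_le _
  have h3 : (3 : 𝓞 k) ≠ 0 := by norm_num
  set e := ordp p (Ideal.span {(3 : 𝓞 k)}) with he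
  have h1 : Ideal.span {(3 : 𝓞 k)} ≤ p.asIdeal ^ e := (le_pow_iff p _ e (span_ne h3)).2 le_rfl
  have h2 := Ideal.absNorm_dvd_absNorm_of_le h1
  have h4 : Ideal.absNorm (Ideal.span {(3 : 𝓞 k)}) = 3 ^ finrank ℚ k := by
    have := Ideal.absNorm_span_natCast (S := 𝓞 k) 3
    rw [RingOfIntegers.rank] at this
    rw [← this]
    norm_num
  rw [h4, map_pow] at h2
  have h5 : 1 < Ideal.absNorm p.asIdeal := NumberField.HeightOneSpectrum.one_lt_absNorm p
  obtain ⟨f, hf, h6⟩ := (Nat.dvd_prime_pow Nat.prime_three).1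
    ((dvd_pow_self _ (by omega : e ≠ 0)).trans h2)
  have h7 : f ≠ 0 := by
    rintro rfl
    rw [h6, pow_zero] at h5
    omega
  rw [h6, ← pow_mul, Nat.pow_dvd_pow_iff_le_right (by norm_num)] at h2
  calc e = 1 * e := (one_mul e).symm
    _ ≤ f * e := Nat.mul_le_mul_right _ (Nat.one_le_iff_ne_zero.2 h7)
    _ ≤ _ := h2

lemma exists_unf (p : HeightOneSpectrum (𝓞 k)) : ∃ π : 𝓞 k, Unf p π := by
  obtain ⟨π, h1, h2⟩ : ∃ π : 𝓞 k, π ∈ p.asIdeal ∧ π ∉ p.asIdeal ^ 2 := by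
    have h : p.asIdeal ^ 2 < p.asIdeal ^ 1 :=
      Ideal.pow_right_strictAnti p.asIdeal p.ne_bot p.isPrime.ne_top (show 1 < 2 by norm_num)
    rw [pow_one] at h
    obtain ⟨π, h1, h2⟩ := SetLike.exists_of_lt h
    exact ⟨π, h1, h2⟩
  have h0 : π ≠ 0 := by
    rintro rfl
    exact h2 (Ideal.zero_mem _)
  have hord : ordp p (Ideal.span {π}) = 1 := by
    have h3 : 1 ≤ ordp p (Ideal.span {π}) := (mem_pow_iff p π 1 h0).1 (by rwa [pow_one])
    have h4 : ¬ 2 ≤ ordp p (Ideal.span {π}) := fun h => h2 ((mem_pow_iff p π 2 h0).2 h)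
    omega
  have hordn : ∀ n : ℕ, ordp p (Ideal.span {π ^ n}) = n := by
    intro n
    induction n with
    | zero =>
      rw [pow_zero]
      by_contra h
      have h5 := (mem_pow_iff p (1 : 𝓞 k) 1 one_ne_zero).2 (by omega)
      rw [pow_one] at h5
      exact p.isPrime.ne_top ((Ideal.eq_top_iff_one _).2 h5)
    | succ n ih =>
      rw [pow_succ, ← Ideal.span_singleton_mul_span_singleton,
        ordp_mul p _ _ (span_ne (pow_ne_zero n h0)) (span_ne h0), ih, hord]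
  refine ⟨π, ?_, ?_⟩
  · intro n j x
    have := mul_mem_iff p (π ^ n) x j (pow_ne_zero n h0)
    rwa [hordn] at this
  · intro n N x hx
    by_cases hN : N ≤ n
    · exact ⟨0, by rw [mul_zero, sub_zero]; exact Ideal.pow_le_pow_right hN hx⟩
    push Not at hN
    have h5 : p.asIdeal ^ n ≤ Ideal.span {π ^ n} ⊔ p.asIdeal ^ N := by
      have hne : (Ideal.span {π ^ n} ⊔ p.asIdeal ^ N : Ideal (𝓞 k)) ≠ ⊥ := by
        intro h
        have : (Ideal.span {π ^ n} : Ideal (𝓞 k)) ≤ ⊥ := h ▸ le_sup_left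
        exact span_ne (pow_ne_zero n h0) (le_bot_iff.1 this)
      have h6 : (Ideal.span {π ^ n} ⊔ p.asIdeal ^ N : Ideal (𝓞 k)) ∣ p.asIdeal ^ N :=
        Ideal.dvd_iff_le.2 le_sup_right
      obtain ⟨i, hi, h7⟩ := (dvd_prime_pow p.prime _).1 h6
      rw [associated_iff_eq] at h7
      rw [h7]
      apply Ideal.pow_le_pow_right
      have h8 : π ^ n ∈ p.asIdeal ^ i := by
        rw [← h7]
        exact Ideal.mem_sup_left (Ideal.mem_span_singleton_self _)
      have h9 := (mem_pow_iff p _ i (pow_ne_zero n h0)).1 h8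
      rwa [hordn] at h9
    obtain ⟨y, hy, z, hz, hyz⟩ := Submodule.mem_sup.1 (h5 hx)
    obtain ⟨f, rfl⟩ := Ideal.mem_span_singleton'.1 hy
    refine ⟨f, ?_⟩
    rw [← hyz]
    have : f * π ^ n + z - π ^ n * f = z := by ring
    rwa [this]

/-- **VPI**. -/
theorem vpi : VpiStmt := by
  intro k _ _
  exact ⟨le_pow_iff, ordp_mul, fun p x y n hx h => (mul_mem_iff p x y n hx).1 h, absNorm_prod,
    ordp_three, two_le_np, exists_unf⟩

end Pool.Agent.LeoD.H68
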