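import Mathlib
import Pool.Agent.Helper68_LeoD.Vpi

/-!
# LKR: the kernel of the linearised action
-/

set_option autoImplicit false
set_option linter.unusedSectionVars false

open NumberField IsDedekindDomain Module
open Pool.Agent.LeoK Pool.Agent.LeoG Pool.Agent.LeoC

open scoped Classical

namespace Pool.Agent.LeoD.H68

variable {k : Type} [Field k] [NumberField k]

lemma two_notMem {p : HeightOneSpectrum (𝓞 k)} (h3 : (3 : 𝓞 k) ∈ p.asIdeal) :
    (2 : 𝓞 k) ∉ p.asIdeal := by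
  intro h2
  apply p.isPrime.ne_top
  rw [Ideal.eq_top_iff_one]
  have : (1 : 𝓞 k) = 3 - 2 := by norm_num
  rw [this]
  exact Ideal.sub_mem _ h3 h2

lemma isUnit_mk {p : HeightOneSpectrum (𝓞 k)} {x : 𝓞 k} (M : ℕ) (hx : x ∉ p.asIdeal) :
    IsUnit (Ideal.Quotient.mk (p.asIdeal ^ M) x) := by
  have hm : p.asIdeal.IsMaximal := p.isPrime.isMaximal p.ne_bot
  obtain ⟨y, i, hi, hyi⟩ := hm.exists_inv hx
  have h1 : IsCoprime (Ideal.span {x}) p.asIdeal := by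
    rw [Ideal.isCoprime_iff_exists]
    exact ⟨y * x, Ideal.mul_mem_left _ _ (Ideal.mem_span_singleton_self x), i, hi, hyi⟩
  have h2 : IsCoprime (Ideal.span {x}) (p.asIdeal ^ M) := h1.pow_right
  rw [Ideal.isCoprime_iff_exists] at h2
  obtain ⟨a, ha, b, hb, hab⟩ := h2
  obtain ⟨c, rfl⟩ := Ideal.mem_span_singleton'.1 ha
  have h3 : Ideal.Quotient.mk (p.asIdeal ^ M) x * Ideal.Quotient.mk (p.asIdeal ^ M) c = 1 := by
    rw [← map_mul, ← map_one (Ideal.Quotient.mk (p.asIdeal ^ M)), Ideal.Quotient.eq]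
    have : x * c - 1 = -b := by rw [← hab]; ring
    rw [this]
    exact Ideal.neg_mem_iff _ |>.2 hb
  exact IsUnit.of_mul_eq_one _ h3

/-- `2` is a unit. -/
lemma isUnit_two {p : HeightOneSpectrum (𝓞 k)} (M : ℕ) (h3 : (3 : 𝓞 k) ∈ p.asIdeal) :
    IsUnit (2 : 𝓞 k ⧸ p.asIdeal ^ M) := by
  have := isUnit_mk (p := p) M (two_notMem h3)
  rwa [map_ofNat] at this

lemma mul_two_pow {R : Type} [CommRing R] (h2 : IsUnit (2 : R)) (n : ℕ) {x : R}
    (h : 2 ^ n * x = 0) : x = 0 := by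
  have h1 : IsUnit ((2 : R) ^ n) := h2.pow n
  exact (h1.mul_right_eq_zero).1 h

/-- The relations between the coefficients. -/
lemma rel_h {p : HeightOneSpectrum (𝓞 k)} {M : ℕ} {h : Q4 (𝓞 k)} (h3 : (3 : 𝓞 k) ∈ p.asIdeal)
    (hh : HCyc p M h) :
    modQ (p.asIdeal ^ M) h 1 + 4 * modQ (p.asIdeal ^ M) h 3 = 0 ∧
      9 * modQ (p.asIdeal ^ M) h 0 + 4 * modQ (p.asIdeal ^ M) h 2 = 0 := by
  have h2 := isUnit_two (p := p) M h3
  have e0 := Ideal.Quotient.eq_zero_iff_mem.2 (hh.stab 0)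
  have e1 := Ideal.Quotient.eq_zero_iff_mem.2 (hh.stab 1)
  simp only [gact, gval, Matrix.cons_val_zero, Matrix.cons_val_one, map_sub, map_add, map_mul,
    map_pow, map_neg, map_ofNat] at e0 e1
  change _ = (0 : 𝓞 k ⧸ p.asIdeal ^ M) at e0
  set A := modQ (p.asIdeal ^ M) h 0 with hA
  set B := modQ (p.asIdeal ^ M) h 1 with hB
  set C := modQ (p.asIdeal ^ M) h 2 with hC
  set D := modQ (p.asIdeal ^ M) h 3 with hD
  have f0 : 9 * A + 2 * B + 4 * C + 8 * D = 0 := by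
    apply mul_two_pow h2 3
    have : (2 : 𝓞 k ⧸ p.asIdeal ^ M) ^ 3 * (9 * A + 2 * B + 4 * C + 8 * D) = 0 := by
      rw [hA, hB, hC, hD]
      simp only [modQ]
      linear_combination -e0
    exact this
  have f1 : 9 * A - 6 * B + 4 * C - 24 * D = 0 := by
    apply mul_two_pow h2 2
    have : (2 : 𝓞 k ⧸ p.asIdeal ^ M) ^ 2 * (9 * A - 6 * B + 4 * C - 24 * D) = 0 := by
      rw [hA, hB, hC, hD]
      simp only [modQ]
      linear_combination e1
    exact this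
  have f2 : B + 4 * D = 0 := by
    apply mul_two_pow h2 3
    linear_combination f0 - f1
  exact ⟨f2, by linear_combination f0 - 2 * f2⟩

lemma mem_of_sq {p : HeightOneSpectrum (𝓞 k)} {x : 𝓞 k} {j : ℕ}
    (h : x ^ 2 ∈ p.asIdeal ^ (2 * j)) : x ∈ p.asIdeal ^ j := by
  by_cases hx : x = 0
  · rw [hx]; exact Ideal.zero_mem _
  · rw [mem_pow_iff p _ _ (pow_ne_zero 2 hx), pow_two, ← Ideal.span_singleton_mul_span_singleton,
      ordp_mul p _ _ (span_ne hx) (span_ne hx)] at h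
    rw [mem_pow_iff p _ _ hx]
    omega

lemma three_pow_mem (p : HeightOneSpectrum (𝓞 k)) (n : ℕ) :
    (3 : 𝓞 k) ^ n ∈ p.asIdeal ^ (n * ordp p (Ideal.span {(3 : 𝓞 k)})) := by
  have h3 : (3 : 𝓞 k) ≠ 0 := by norm_num
  have h1 := (mem_pow_iff p (3 : 𝓞 k) _ h3).2 le_rfl
  have h2 := Ideal.pow_mem_pow h1 n
  rwa [← pow_mul, mul_comm] at h2

/-- The determinant. -/
lemma det_mem {p : HeightOneSpectrum (𝓞 k)} {M : ℕ} {h : Q4 (𝓞 k)} (h3 : (3 : 𝓞 k) ∈ p.asIdeal)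
    (hM : 8 * ordp p (Ideal.span {(3 : 𝓞 k)}) ≤ M) (hh : HCyc p M h) :
    27 * h 0 ^ 2 + 4 * h 1 ^ 2 ∈ p.asIdeal ^ (4 * ordp p (Ideal.span {(3 : 𝓞 k)})) := by
  obtain ⟨r1, r2⟩ := rel_h h3 hh
  have hd := Ideal.Quotient.eq_zero_iff_mem.2 hh.dis
  simp only [mm, dsc, map_sub, map_add, map_mul, map_pow, map_neg, map_ofNat] at hd
  have h4 : (27 * h 0 ^ 2 + 4 * h 1 ^ 2) ^ 2 - 16 * 3 ^ 8 ∈ p.asIdeal ^ M := by
    rw [← Ideal.Quotient.eq_zero_iff_mem]
    simp only [map_sub, map_add, map_mul, map_pow, map_ofNat]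
    simp only [modQ] at r1 r2
    set A := Ideal.Quotient.mk (p.asIdeal ^ M) (h 0)
    set B := Ideal.Quotient.mk (p.asIdeal ^ M) (h 1)
    set C := Ideal.Quotient.mk (p.asIdeal ^ M) (h 2)
    set D := Ideal.Quotient.mk (p.asIdeal ^ M) (h 3)
    have e1 : 4 * D = -B := by linear_combination r1
    have e2 : 4 * C = -(9 * A) := by linear_combination r2
    have key : 16 * (B ^ 2 * C ^ 2 - 4 * A * C ^ 3 - 4 * B ^ 3 * D - 27 * A ^ 2 * D ^ 2 +
        18 * A * B * C * D) = (27 * A ^ 2 + 4 * B ^ 2) ^ 2 := by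
      have : 16 * (B ^ 2 * C ^ 2 - 4 * A * C ^ 3 - 4 * B ^ 3 * D - 27 * A ^ 2 * D ^ 2 +
          18 * A * B * C * D) = B ^ 2 * (4 * C) ^ 2 - A * (4 * C) ^ 3 - 16 * B ^ 3 * (4 * D) -
          27 * A ^ 2 * (4 * D) ^ 2 + 18 * A * B * (4 * C) * (4 * D) := by ring
      rw [this, e1, e2]
      ring
    linear_combination -key - 16 * hd
  have h5 : (16 : 𝓞 k) * 3 ^ 8 ∈ p.asIdeal ^ (8 * ordp p (Ideal.span {(3 : 𝓞 k)})) :=
    Ideal.mul_mem_left _ _ (three_pow_mem p 8)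
  have h6 : (27 * h 0 ^ 2 + 4 * h 1 ^ 2) ^ 2 ∈
      p.asIdeal ^ (2 * (4 * ordp p (Ideal.span {(3 : 𝓞 k)}))) := by
    have h7 := Ideal.add_mem _ (Ideal.pow_le_pow_right hM h4) h5
    rw [sub_add_cancel] at h7
    rw [show 2 * (4 * ordp p (Ideal.span {(3 : 𝓞 k)})) = 8 * ordp p (Ideal.span {(3 : 𝓞 k)}) by ring]
    exact h7
  exact mem_of_sq h6

/-- **LKR**. -/
theorem lkr (ke2 : Ke2Stmt) : LkrStmt := by
  intro k _ _ p M h h3 hM hh
  have he := ordp_three p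
  set e := ordp p (Ideal.span {(3 : 𝓞 k)}) with hedef
  have hMe : 8 * e ≤ M := by omega
  have hdet := det_mem h3 hMe hh
  rw [← hedef] at hdet
  obtain ⟨r1, r2⟩ := rel_h h3 hh
  have h2 := isUnit_two (p := p) M h3
  have : Finite (𝓞 k ⧸ p.asIdeal ^ M) :=
    Ideal.finiteQuotientOfFreeOfNeBot _ (pow_ne_zero M p.ne_bot)
  have k1 := ke2 k p M (4 * e) (h 0) (h 1) (-(4 * h 1)) (27 * h 0) (by omega) (by
    have : h 0 * (27 * h 0) - h 1 * -(4 * h 1) = 27 * h 0 ^ 2 + 4 * h 1 ^ 2 := by ring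
    rw [this]
    exact hdet)
  have k2 := ke2 k p M (4 * e) (18 * h 0) (h 1) (8 * h 1) (-(3 * h 0)) (by omega) (by
    have : 18 * h 0 * -(3 * h 0) - h 1 * (8 * h 1) = -2 * (27 * h 0 ^ 2 + 4 * h 1 ^ 2) := by ring
    rw [this]
    exact Ideal.mul_mem_left _ _ hdet)
  obtain ⟨i2, hi2⟩ := h2.exists_right_inv
  simp only [map_mul, map_neg, map_ofNat] at k1 k2
  simp only [modQ] at r1 r2 ⊢
  set A := Ideal.Quotient.mk (p.asIdeal ^ M) (h 0)
  set B := Ideal.Quotient.mk (p.asIdeal ^ M) (h 1)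
  set C := Ideal.Quotient.mk (p.asIdeal ^ M) (h 2)
  set D := Ideal.Quotient.mk (p.asIdeal ^ M) (h 3)
  have e1 : 4 * D = -B := by linear_combination r1
  have e2 : 4 * C = -(9 * A) := by linear_combination r2
  have hi4 : 4 * (i2 ^ 2) = 1 := by
    linear_combination (2 * i2 + 1) * hi2
  set S1 := {v : (𝓞 k ⧸ p.asIdeal ^ M) × (𝓞 k ⧸ p.asIdeal ^ M) //
      A * v.1 + B * v.2 = 0 ∧ -(4 * B) * v.1 + 27 * A * v.2 = 0}
  set S2 := {v : (𝓞 k ⧸ p.asIdeal ^ M) × (𝓞 k ⧸ p.asIdeal ^ M) //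
      18 * A * v.1 + B * v.2 = 0 ∧ 8 * B * v.1 + -(3 * A) * v.2 = 0}
  set S := {X : Q4 (𝓞 k ⧸ p.asIdeal ^ M) //
        (2 * X 0 - X 3) * A + B * X 2 = 0 ∧
        3 * A * X 1 + B * X 0 + 2 * C * X 2 = 0 ∧
        2 * B * X 1 + C * X 3 + 3 * D * X 2 = 0 ∧
        (2 * X 3 - X 0) * D + C * X 1 = 0}
  have hmap : ∃ f : S1 × S2 → S, Function.Injective f := by
    refine ⟨fun q => ⟨![q.1.1.1 - 2 * q.2.1.1, i2 ^ 2 * (q.2.1.2 - 3 * q.1.1.2), q.1.1.2,
      q.1.1.1 - 4 * q.2.1.1], ?_⟩, ?_⟩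
    · obtain ⟨⟨⟨a', z⟩, hq1, hq2⟩, ⟨⟨c, s⟩, hq3, hq4⟩⟩ := q
      simp only [Matrix.cons_val_zero, Matrix.cons_val_one, Matrix.cons_val_two, Matrix.cons_val_three,
        Matrix.head_cons, Matrix.tail_cons, Matrix.cons_val] at hq1 hq2 hq3 hq4 ⊢
      set y := i2 ^ 2 * (s - 3 * z) with hy
      have hy4 : 4 * y = s - 3 * z := by
        rw [hy]
        linear_combination (s - 3 * z) * hi4
      have l0 : (2 * (a' - 2 * c) - (a' - 4 * c)) * A + B * z = 0 := by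
        linear_combination hq1
      have l3 : (2 * (a' - 4 * c) - (a' - 2 * c)) * D + C * y = 0 := by
        apply mul_two_pow h2 4
        linear_combination 4 * (a' - 6 * c) * e1 + 4 * y * e2 - 9 * A * hy4 + hq2 + 3 * hq4
      refine ⟨l0, ?_, ?_, l3⟩
      · apply mul_two_pow h2 1
        linear_combination -8 * l3 + hq4 + 2 * (a' - 6 * c) * e1 + 2 * y * e2 + z * e2 -
          3 * A * hy4
      · apply mul_two_pow h2 2
        linear_combination 2 * hq3 - 9 * hq1 + 2 * B * hy4 + (a' - 4 * c) * e2 + 3 * z * e1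
    · rintro ⟨⟨⟨a', z⟩, hq1⟩, ⟨⟨c, s⟩, hq3⟩⟩ ⟨⟨⟨a₁, z₁⟩, hq1'⟩, ⟨⟨c₁, s₁⟩, hq3'⟩⟩ heq
      have g := congrArg Subtype.val heq
      have g0 := congrFun g 0
      have g1 := congrFun g 1
      have g2 := congrFun g 2
      have g3 := congrFun g 3
      simp only [Matrix.cons_val_zero, Matrix.cons_val_one, Matrix.cons_val_two, Matrix.cons_val_three,
        Matrix.head_cons, Matrix.tail_cons, Matrix.cons_val] at g0 g1 g2 g3
      have hc : c = c₁ := by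
        have : c - c₁ = 0 := by
          apply mul_two_pow h2 1
          linear_combination g0 - g3
        exact sub_eq_zero.1 this
      subst hc
      have ha : a' = a₁ := by linear_combination g0
      subst ha
      subst g2
      have hs : s = s₁ := by
        linear_combination 4 * g1 - (s - s₁) * hi4
      subst hs
      rfl
  obtain ⟨f, hf⟩ := hmap
  have hle : Nat.card (S1 × S2) ≤ Nat.card S := Nat.card_le_card_of_injective f hf
  rw [Nat.card_prod] at hle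
  have hnp : (0 : ℝ) ≤ np p ^ (4 * e) := by
    have := two_le_np p
    positivity
  calc np p ^ (8 * e) = np p ^ (4 * e) * np p ^ (4 * e) := by rw [← pow_add]; congr 1; ring
    _ ≤ (Nat.card S1 : ℝ) * (Nat.card S2 : ℝ) := mul_le_mul k1 k2 hnp (by positivity)
    _ ≤ (Nat.card S : ℝ) := by exact_mod_cast hle

end Pool.Agent.LeoD.H68
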