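import Mathlib
import Pool.Agent.Helper68_LeoD.Lkr
import Pool.Agent.Helper87_LeoG.Idn

/-!
# STB: the stabiliser of `h`
-/

set_option autoImplicit false
set_option linter.unusedSectionVars false

open NumberField IsDedekindDomain Module
open Pool.Agent.LeoK Pool.Agent.LeoG Pool.Agent.LeoC
open Pool.Agent.LeoG.H87 (gact_0 gact_1 gact_2 gact_3 gact_gact)

open scoped Classical

namespace Pool.Agent.LeoD.H68

variable {k : Type} [Field k] [NumberField k]

section ring

variable {R : Type} [CommRing R]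

/-- the linearised action -/
def LZ (h X : Q4 R) : Prop :=
  (2 * X 0 - X 3) * h 0 + h 1 * X 2 = 0 ∧ 3 * h 0 * X 1 + h 1 * X 0 + 2 * h 2 * X 2 = 0 ∧
    2 * h 1 * X 1 + h 2 * X 3 + 3 * h 3 * X 2 = 0 ∧ (2 * X 3 - X 0) * h 3 + h 2 * X 1 = 0

/-- elements of the kernel with products zero give elements of the stabiliser -/
lemma stab_of (h X : Q4 R) (hX : LZ h X) (h0 : ∀ i j, X i * X j = 0) :
    ∀ i, gact h (1 + X 0) (X 1) (X 2) (1 + X 3) i =
      ((1 + X 0) * (1 + X 3) - X 1 * X 2) * h i := by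
  obtain ⟨l0, l1, l2, l3⟩ := hX
  have xx := h0 0 0
  have xy := h0 0 1
  have xz := h0 0 2
  have xw := h0 0 3
  have yy := h0 1 1
  have yz := h0 1 2
  have yw := h0 1 3
  have zz := h0 2 2
  have zw := h0 2 3
  have ww := h0 3 3
  generalize X 0 = x at *
  generalize X 1 = y at *
  generalize X 2 = z at *
  generalize X 3 = w at *
  intro i
  fin_cases i
  · simp only [Fin.zero_eta, Fin.isValue, gact_0, gval]
    linear_combination l0 + h 0 * (3 + x) * xx + h 1 * (2 + x) * xz + h 2 * (1 + x) * zz +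
      h 3 * z * zz - h 0 * xw + h 0 * yz
  · simp only [Fin.mk_one, Fin.isValue, gact_1]
    linear_combination l1 + 3 * h 0 * (2 + x) * xy + h 1 * xx + h 1 * (2 + x) * xw - h 1 * xw +
      h 1 * yz + 2 * h 1 * (1 + x) * yz + 2 * h 2 * xz + 2 * h 2 * (1 + x) * zw + h 2 * z * yz +
      3 * h 3 * (1 + w) * zz
  · simp only [Fin.reduceFinMk, Fin.isValue, gact_2]
    linear_combination l2 + 3 * h 0 * (1 + x) * yy + 2 * h 1 * xy + 2 * h 1 * (1 + x) * yw +
      h 1 * y * yz + h 2 * ww + h 2 * (1 + w) * xw + h 2 * yz + 2 * h 2 * (1 + w) * yz +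
      3 * h 3 * (2 + w) * zw
  · simp only [Fin.reduceFinMk, Fin.isValue, gact_3, gval]
    linear_combination l3 + h 0 * y * yy + h 1 * (1 + w) * yy + h 2 * (2 + w) * yw +
      h 3 * (3 + w) * ww - h 3 * xw + h 3 * yz

/-- the kernel is killed by the discriminant (up to powers of two) -/
lemma kill_of (h X : Q4 R) (hX : LZ h X) (e1 : 4 * h 3 = -h 1) (e2 : 4 * h 2 = -(9 * h 0)) (i : Fin 4) :
    2 ^ 3 * ((27 * h 0 ^ 2 + 4 * h 1 ^ 2) * X i) = 0 := by
  obtain ⟨l0, l1, l2, l3⟩ := hX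
  have hbe : 4 * h 1 * (X 0 - X 3) - 3 * h 0 * (4 * X 1 + 3 * X 2) = 0 := by
    linear_combination 2 * l1 + 8 * l3 - (X 2 + 2 * X 1) * e2 - 2 * (2 * X 3 - X 0) * e1
  have hal : 18 * h 0 * (X 0 - X 3) + 2 * h 1 * (4 * X 1 + 3 * X 2) = 0 := by
    linear_combination 4 * l2 + 9 * l0 - X 3 * e2 - 3 * X 2 * e1
  have hI2 : -(4 * h 1) * (2 * X 0 - X 3) + 27 * h 0 * X 2 = 0 := by
    linear_combination 16 * l3 - 4 * (2 * X 3 - X 0) * e1 - 4 * X 1 * e2 - 3 * hbe
  have h1 : (27 * h 0 ^ 2 + 4 * h 1 ^ 2) * (2 * X 0 - X 3) = 0 := by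
    linear_combination 27 * h 0 * l0 - h 1 * hI2
  have hz : (27 * h 0 ^ 2 + 4 * h 1 ^ 2) * X 2 = 0 := by
    linear_combination 4 * h 1 * l0 + h 0 * hI2
  have hc : 2 * ((27 * h 0 ^ 2 + 4 * h 1 ^ 2) * (X 0 - X 3)) = 0 := by
    linear_combination 3 * h 0 * hal + 2 * h 1 * hbe
  have hs : 2 * ((27 * h 0 ^ 2 + 4 * h 1 ^ 2) * (4 * X 1 + 3 * X 2)) = 0 := by
    linear_combination 4 * h 1 * hal - 18 * h 0 * hbe
  fin_cases i
  · simp only [Fin.zero_eta, Fin.isValue]
    linear_combination 8 * h1 - 4 * hc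
  · simp only [Fin.mk_one, Fin.isValue]
    linear_combination hs - 6 * hz
  · simp only [Fin.reduceFinMk, Fin.isValue]
    linear_combination 8 * hz
  · simp only [Fin.reduceFinMk, Fin.isValue]
    linear_combination 8 * h1 - 8 * hc

/-- composition in the stabiliser -/
lemma stab_comp (h : Q4 R) (a b c d x y z w : R) (h1 : gact h a b c d = h)
    (h2 : ∀ i, gact h x y z w i = (x * w - y * z) * h i) (h3 : a * d - b * c = 1) :
    ∀ i, gact h (a * x + b * z) (a * y + b * w) (c * x + d * z) (c * y + d * w) i =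
      ((a * x + b * z) * (c * y + d * w) - (a * y + b * w) * (c * x + d * z)) * h i := by
  intro i
  rw [← gact_gact, h1, h2 i]
  linear_combination -(x * w - y * z) * h i * h3

/-- the product matrix -/
def mm4 (s g : Q4 R) : Q4 R :=
  ![s 0 * g 0 + s 1 * g 2, s 0 * g 1 + s 1 * g 3, s 2 * g 0 + s 3 * g 2, s 2 * g 1 + s 3 * g 3]

lemma mm4_inj (s g g' : Q4 R) (h : s 0 * s 3 - s 1 * s 2 = 1) (heq : mm4 s g = mm4 s g') :
    g = g' := by
  have h0 : s 0 * g 0 + s 1 * g 2 = s 0 * g' 0 + s 1 * g' 2 := congrFun heq 0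
  have h1 : s 0 * g 1 + s 1 * g 3 = s 0 * g' 1 + s 1 * g' 3 := congrFun heq 1
  have h2 : s 2 * g 0 + s 3 * g 2 = s 2 * g' 0 + s 3 * g' 2 := congrFun heq 2
  have h3 : s 2 * g 1 + s 3 * g 3 = s 2 * g' 1 + s 3 * g' 3 := congrFun heq 3
  funext i
  fin_cases i
  · simp only [Fin.zero_eta, Fin.isValue]
    linear_combination s 3 * h0 - s 1 * h2 - (g 0 - g' 0) * h
  · simp only [Fin.mk_one, Fin.isValue]
    linear_combination s 3 * h1 - s 1 * h3 - (g 1 - g' 1) * h
  · simp only [Fin.reduceFinMk, Fin.isValue]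
    linear_combination s 0 * h2 - s 2 * h0 - (g 2 - g' 2) * h
  · simp only [Fin.reduceFinMk, Fin.isValue]
    linear_combination s 0 * h3 - s 2 * h1 - (g 3 - g' 3) * h

lemma gact_smul (v : Q4 R) (t x y z w : R) (i : Fin 4) :
    gact v (t * x) (t * y) (t * z) (t * w) i = t ^ 3 * gact v x y z w i := by
  fin_cases i
  · change gval v (t * x) (t * z) = t ^ 3 * gval v x z
    simp only [gval]; ring
  · simp only [Fin.mk_one, Fin.isValue, gact_1]; ring
  · simp only [Fin.reduceFinMk, Fin.isValue, gact_2]; ring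
  · change gval v (t * y) (t * w) = t ^ 3 * gval v y w
    simp only [gval]; ring

lemma gact_map {S : Type} [CommRing S] (f : R →+* S) (v : Q4 R) (x y z w : R) (i : Fin 4) :
    f (gact v x y z w i) = gact (fun j => f (v j)) (f x) (f y) (f z) (f w) i := by
  fin_cases i
  · change f (gval v x z) = gval (fun j => f (v j)) (f x) (f z)
    simp only [gval, map_add, map_mul, map_pow]
  · simp only [Fin.mk_one, Fin.isValue, gact_1, map_add, map_mul, map_pow, map_ofNat]
  · simp only [Fin.reduceFinMk, Fin.isValue, gact_2, map_add, map_mul, map_pow, map_ofNat]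
  · change f (gval v y w) = gval (fun j => f (v j)) (f y) (f w)
    simp only [gval, map_add, map_mul, map_pow]

/-- the count in an abstract ring -/
lemma stab_count {κ : Type} [Finite R] [CommRing κ] [Nontrivial κ] (f : R →+* κ)
    (h2 : (2 : κ) ≠ 0) (H : Q4 R) (i2 : R) (hi2 : 2 * i2 = 1)
    (hstab : ∀ i, gact H (-2) 3 (-4) (-2) i = 64 * H i)
    (hprod : ∀ X : Q4 R, LZ H X → ∀ i j, X i * X j = 0)
    (hfX : ∀ X : Q4 R, LZ H X → ∀ i, f (X i) = 0) (hu : ∀ r : R, f r = 1 → IsUnit r) :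
    3 * Nat.card {X : Q4 R // LZ H X} ≤
      Nat.card {g : Q4 R // IsUnit (g 0 * g 3 - g 1 * g 2) ∧
        ∀ i, gact H (g 0) (g 1) (g 2) (g 3) i = (g 0 * g 3 - g 1 * g 2) * H i} := by
  have hs4 : 4 * i2 ^ 2 = 1 := by linear_combination (2 * i2 + 1) * hi2
  set s1 : Q4 R := ![-i2, 3 * i2 ^ 2, -1, -i2] with hs1
  have hd1 : s1 0 * s1 3 - s1 1 * s1 2 = 1 := by
    simp only [hs1, Matrix.cons_val_zero, Matrix.cons_val_one, Matrix.cons_val]
    linear_combination hs4
  have ha1 : gact H (s1 0) (s1 1) (s1 2) (s1 3) = H := by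
    funext i
    have h7 := gact_smul H (i2 ^ 2) (-2) 3 (-4) (-2) i
    have g0 : i2 ^ 2 * -2 = -i2 := by
      linear_combination -i2 * hi2
    have g1 : i2 ^ 2 * 3 = 3 * i2 ^ 2 := by
      ring
    have g2 : i2 ^ 2 * -4 = -1 := by
      linear_combination -hs4
    rw [g0, g1, g2, hstab i] at h7
    change gact H (-i2) (3 * i2 ^ 2) (-1) (-i2) i = H i
    rw [h7]
    linear_combination H i * ((4 * i2 ^ 2) ^ 2 + 4 * i2 ^ 2 + 1) * hs4
  set s2 : Q4 R := mm4 s1 s1 with hs2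
  have hd2 : s2 0 * s2 3 - s2 1 * s2 2 = 1 := by
    simp only [hs2, mm4, Matrix.cons_val_zero, Matrix.cons_val_one, Matrix.cons_val]
    linear_combination (s1 0 * s1 3 - s1 1 * s1 2 + 1) * hd1
  have ha2 : gact H (s2 0) (s2 1) (s2 2) (s2 3) = H := by
    have h5 := gact_gact H (s1 0) (s1 1) (s1 2) (s1 3) (s1 0) (s1 1) (s1 2) (s1 3)
    rw [ha1, ha1] at h5
    exact h5.symm
  set s0 : Q4 R := ![1, 0, 0, 1] with hs0
  have hd0 : s0 0 * s0 3 - s0 1 * s0 2 = 1 := by
    simp [hs0]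
  have ha0 : gact H (s0 0) (s0 1) (s0 2) (s0 3) = H := by
    funext i
    fin_cases i <;> simp [hs0, gact, gval]
  set s : Fin 3 → Q4 R := ![s0, s1, s2] with hs
  have hds : ∀ j, s j 0 * s j 3 - s j 1 * s j 2 = 1 := by
    intro j
    fin_cases j
    · exact hd0
    · exact hd1
    · exact hd2
  have has : ∀ j, gact H (s j 0) (s j 1) (s j 2) (s j 3) = H := by
    intro j
    fin_cases j
    · exact ha0
    · exact ha1
    · exact ha2
  have hfs : ∀ j j', f (s j 2) = f (s j' 2) → j = j' := by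
    have f0 : f (s 0 2) = 0 := by
      change f 0 = 0
      exact map_zero f
    have f1 : f (s 1 2) = -1 := by
      change f (-1) = -1
      rw [map_neg, map_one]
    have f2 : f (s 2 2) = 1 := by
      change f (-1 * -i2 + -i2 * -1) = 1
      rw [← map_one f]
      congr 1
      linear_combination hi2
    have n1 : (0 : κ) ≠ -1 := by
      intro h
      exact one_ne_zero (neg_eq_zero.1 h.symm)
    have n2 : (0 : κ) ≠ 1 := zero_ne_one
    have n3 : (-1 : κ) ≠ 1 := by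
      intro h
      apply h2
      linear_combination -h
    intro j j' h
    fin_cases j <;> fin_cases j' <;>
      simp only [Fin.zero_eta, Fin.mk_one, Fin.reduceFinMk, Fin.isValue, f0, f1, f2] at h ⊢
    · exact absurd h n1
    · exact absurd h n2
    · exact absurd h.symm n1
    · exact absurd h n3
    · exact absurd h.symm n2
    · exact absurd h.symm n3
  set u : Q4 R → Q4 R := fun X => ![1 + X 0, X 1, X 2, 1 + X 3] with hu'
  let g : Fin 3 × {X : Q4 R // LZ H X} → {g : Q4 R // IsUnit (g 0 * g 3 - g 1 * g 2) ∧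
        ∀ i, gact H (g 0) (g 1) (g 2) (g 3) i = (g 0 * g 3 - g 1 * g 2) * H i} :=
    fun q => ⟨mm4 (s q.1) (u q.2.1), by
      constructor
      · apply hu
        have h5 := hfX q.2.1 q.2.2
        have h6 : mm4 (s q.1) (u q.2.1) 0 * mm4 (s q.1) (u q.2.1) 3 -
            mm4 (s q.1) (u q.2.1) 1 * mm4 (s q.1) (u q.2.1) 2 =
            (s q.1 0 * s q.1 3 - s q.1 1 * s q.1 2) *
              ((1 + q.2.1 0) * (1 + q.2.1 3) - q.2.1 1 * q.2.1 2) := by
          change (s q.1 0 * (1 + q.2.1 0) + s q.1 1 * q.2.1 2) *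
            (s q.1 2 * q.2.1 1 + s q.1 3 * (1 + q.2.1 3)) -
            (s q.1 0 * q.2.1 1 + s q.1 1 * (1 + q.2.1 3)) *
            (s q.1 2 * (1 + q.2.1 0) + s q.1 3 * q.2.1 2) = _
          ring
        rw [h6, hds, one_mul, map_sub, map_mul, map_mul, map_add, map_add, h5 0, h5 1, h5 2, h5 3,
          map_one]
        ring
      · exact stab_comp H (s q.1 0) (s q.1 1) (s q.1 2) (s q.1 3) (1 + q.2.1 0) (q.2.1 1) (q.2.1 2)
          (1 + q.2.1 3) (has q.1) (stab_of H q.2.1 q.2.2 (hprod q.2.1 q.2.2)) (hds q.1)⟩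
  have hg : Function.Injective g := by
    rintro ⟨j, X, hX⟩ ⟨j', X', hX'⟩ heq
    have h5 : mm4 (s j) (u X) = mm4 (s j') (u X') := congrArg Subtype.val heq
    have h6 : s j 2 * (1 + X 0) + s j 3 * X 2 = s j' 2 * (1 + X' 0) + s j' 3 * X' 2 :=
      congrFun h5 2
    have h7 := congrArg f h6
    rw [map_add, map_add, map_mul, map_mul, map_mul, map_mul, map_add, map_add, hfX X hX 0,
      hfX X hX 2, hfX X' hX' 0, hfX X' hX' 2, map_one] at h7
    simp only [add_zero, mul_one, mul_zero] at h7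
    have hj := hfs j j' h7
    subst hj
    have h8 := mm4_inj (s j) (u X) (u X') (hds j) h5
    have h9 : X = X' := by
      funext i
      have k0 : 1 + X 0 = 1 + X' 0 := congrFun h8 0
      have k1 : X 1 = X' 1 := congrFun h8 1
      have k2 : X 2 = X' 2 := congrFun h8 2
      have k3 : 1 + X 3 = 1 + X' 3 := congrFun h8 3
      fin_cases i
      · exact add_left_cancel k0
      · exact k1
      · exact k2
      · exact add_left_cancel k3
    subst h9
    rfl
  have h10 := Nat.card_le_card_of_injective g hg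
  rwa [Nat.card_prod, Nat.card_eq_fintype_card, Fintype.card_fin] at h10

end ring

lemma ordp_pow (p : HeightOneSpectrum (𝓞 k)) (x : 𝓞 k) (hx : x ≠ 0) (n : ℕ) :
    ordp p (Ideal.span {x ^ (n + 1)}) = (n + 1) * ordp p (Ideal.span {x}) := by
  induction n with
  | zero => rw [zero_add, pow_one, one_mul]
  | succ n ih =>
    rw [pow_succ, ← Ideal.span_singleton_mul_span_singleton,
      ordp_mul p _ _ (span_ne (pow_ne_zero _ hx)) (span_ne hx), ih]
    ring

/-- **STB**. -/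
theorem stb (hlkr : LkrStmt) : StbStmt := by
  intro k _ _ p M h h3 hM hh
  have hker := hlkr k p M h h3 hM hh
  have he := ordp_three p
  have hn : 0 < finrank ℚ k := finrank_pos
  have hM1 : 1 ≤ M := by omega
  have hfin : Finite (𝓞 k ⧸ p.asIdeal ^ M) :=
    Ideal.finiteQuotientOfFreeOfNeBot _ (pow_ne_zero M p.ne_bot)
  obtain ⟨r1, r2⟩ := rel_h h3 hh
  have h2 := isUnit_two (p := p) M h3
  obtain ⟨i2, hi2⟩ := h2.exists_right_inv
  have e1 : 4 * modQ (p.asIdeal ^ M) h 3 = -modQ (p.asIdeal ^ M) h 1 := by linear_combination r1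
  have e2 : 4 * modQ (p.asIdeal ^ M) h 2 = -(9 * modQ (p.asIdeal ^ M) h 0) := by
    linear_combination r2
  have hD : (27 * modQ (p.asIdeal ^ M) h 0 ^ 2 + 4 * modQ (p.asIdeal ^ M) h 1 ^ 2) ^ 2 =
      16 * 3 ^ 8 := by
    have hd := Ideal.Quotient.eq_zero_iff_mem.2 hh.dis
    simp only [mm, dsc, map_sub, map_add, map_mul, map_pow, map_neg, map_ofNat] at hd
    simp only [modQ] at e1 e2 ⊢
    set A := Ideal.Quotient.mk (p.asIdeal ^ M) (h 0)
    set B := Ideal.Quotient.mk (p.asIdeal ^ M) (h 1)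
    set C := Ideal.Quotient.mk (p.asIdeal ^ M) (h 2)
    set D := Ideal.Quotient.mk (p.asIdeal ^ M) (h 3)
    have key : 16 * (B ^ 2 * C ^ 2 - 4 * A * C ^ 3 - 4 * B ^ 3 * D - 27 * A ^ 2 * D ^ 2 +
        18 * A * B * C * D) = (27 * A ^ 2 + 4 * B ^ 2) ^ 2 := by
      have : 16 * (B ^ 2 * C ^ 2 - 4 * A * C ^ 3 - 4 * B ^ 3 * D - 27 * A ^ 2 * D ^ 2 +
          18 * A * B * C * D) = B ^ 2 * (4 * C) ^ 2 - A * (4 * C) ^ 3 - 16 * B ^ 3 * (4 * D) -
          27 * A ^ 2 * (4 * D) ^ 2 + 18 * A * B * (4 * C) * (4 * D) := by ring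
      rw [this, e1, e2]
      ring
    linear_combination -key - 16 * hd
  have hK : ∀ X : Q4 (𝓞 k ⧸ p.asIdeal ^ M), LZ (modQ (p.asIdeal ^ M) h) X →
      ∀ i, ∃ x ∈ p.asIdeal ^ (M - 8 * ordp p (Ideal.span {(3 : 𝓞 k)})),
        X i = Ideal.Quotient.mk _ x := by
    intro X hX i
    have hk := kill_of _ X hX e1 e2 i
    have h5 : 3 ^ 8 * X i = 0 := by
      apply mul_two_pow h2 7
      linear_combination (27 * modQ (p.asIdeal ^ M) h 0 ^ 2 + 4 * modQ (p.asIdeal ^ M) h 1 ^ 2) * hk -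
        8 * X i * hD
    obtain ⟨x, hx⟩ := Ideal.Quotient.mk_surjective (X i)
    refine ⟨x, ?_, hx.symm⟩
    rw [← hx, ← map_ofNat (Ideal.Quotient.mk (p.asIdeal ^ M)) 3, ← map_pow, ← map_mul,
      Ideal.Quotient.eq_zero_iff_mem] at h5
    have h6 : (3 : 𝓞 k) ≠ 0 := by norm_num
    have h7 : ordp p (Ideal.span {(3 : 𝓞 k) ^ 8}) = 8 * ordp p (Ideal.span {(3 : 𝓞 k)}) :=
      ordp_pow p 3 h6 7
    apply (mul_mem_iff p (3 ^ 8) x (M - 8 * ordp p (Ideal.span {(3 : 𝓞 k)})) (pow_ne_zero 8 h6)).1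
    rw [h7]
    rw [show 8 * ordp p (Ideal.span {(3 : 𝓞 k)}) + (M - 8 * ordp p (Ideal.span {(3 : 𝓞 k)})) = M by
      omega]
    exact h5
  have hmain := stab_count (Ideal.Quotient.factor (Ideal.pow_le_self (by omega) :
      p.asIdeal ^ M ≤ p.asIdeal)) (by
        intro h5
        apply two_notMem h3
        rw [← Ideal.Quotient.eq_zero_iff_mem, map_ofNat]
        exact h5) (modQ (p.asIdeal ^ M) h) i2 hi2 (by
        intro i
        have h5 := Ideal.Quotient.eq_zero_iff_mem.2 (hh.stab i)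
        rw [map_sub, gact_map, map_mul, map_neg, map_neg, map_ofNat, map_ofNat, map_ofNat,
          map_ofNat] at h5
        exact sub_eq_zero.1 h5) (by
        intro X hX i j
        obtain ⟨x, hx, hxi⟩ := hK X hX i
        obtain ⟨y, hy, hyj⟩ := hK X hX j
        rw [hxi, hyj, ← map_mul, Ideal.Quotient.eq_zero_iff_mem]
        have h5 := Ideal.mul_mem_mul hx hy
        rw [← pow_add] at h5
        exact Ideal.pow_le_pow_right (by omega) h5) (by
        intro X hX i
        obtain ⟨x, hx, hxi⟩ := hK X hX i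
        rw [hxi]
        change Ideal.Quotient.mk p.asIdeal x = 0
        rw [Ideal.Quotient.eq_zero_iff_mem]
        exact Ideal.pow_le_self (by omega) hx) (by
        intro r hr
        obtain ⟨x, rfl⟩ := Ideal.Quotient.mk_surjective r
        apply isUnit_mk
        intro hx
        have h5 : Ideal.Quotient.mk p.asIdeal x = 1 := hr
        rw [Ideal.Quotient.eq_zero_iff_mem.2 hx] at h5
        exact zero_ne_one h5)
  have hmain' : 3 * (Nat.card {X : Q4 (𝓞 k ⧸ p.asIdeal ^ M) // LZ (modQ (p.asIdeal ^ M) h) X} : ℝ) ≤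
      (Nat.card {g : Q4 (𝓞 k ⧸ p.asIdeal ^ M) // IsUnit (g 0 * g 3 - g 1 * g 2) ∧
        ∀ i, gact (modQ _ h) (g 0) (g 1) (g 2) (g 3) i =
          (g 0 * g 3 - g 1 * g 2) * modQ _ h i} : ℝ) := by
    exact_mod_cast hmain
  refine le_trans ?_ hmain'
  exact mul_le_mul_of_nonneg_left hker (by norm_num)

end Pool.Agent.LeoD.H68
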