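import Mathlib
import Pool.Agent.LeoD.LocStmts
import Pool.Agent.Helper68_LeoD.Vpi
import Pool.Agent.Helper68_LeoD.Lkr
import Pool.Agent.Helper68_LeoD.Stb
import Pool.Agent.Helper68_LeoD.Denb
import Pool.Agent.Helper86_LeoD.Crd
import Pool.Agent.Helper86_LeoD.Gsc
import Pool.Agent.Helper83_LeoD.Drt
import Pool.Agent.Helper65_LeoD.Dbc
import Pool.Agent.Helper37_LeoD.Upc
import Pool.Agent.Helper69_LeoD.U2f
import Pool.Agent.Helper69_LeoD.Ld6
import Pool.Agent.Helper5_LeoD.Ke2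
import Pool.Agent.Helper5_LeoD.Lt3
import Pool.Agent.Helper89_LeoD.Mrb
import Pool.Agent.Helper90_LeoD.Glc
import Pool.Agent.Helper90_LeoD.Orb
import Pool.Agent.Helper90_LeoD.Ldt
import Pool.Agent.Helper24_LeoD.Lde
import Pool.Agent.Helper24_LeoD.Ldn
import Pool.Agent.Helper59_LeoD.Sq2
import Pool.Agent.Helper59_LeoD.Mrp
import Pool.Agent.Helper26_LeoD.Bfn
import Pool.Agent.Helper52_LeoD.Fun
import Pool.Agent.Helper75_LeoD.Lcg
import Pool.Agent.Helper9_LeoG.Ld5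
import Pool.Agent.Helper52_LeoK.Ld5
import Pool.Agent.Helper52_LeoK.Loc

/-!
# LEOD: assembly of the local part
-/

set_option autoImplicit false

namespace Pool.Agent.LeoD.H68

theorem orb : OrbStmt := H90.orb (stb (lkr H5.ke2)) H90.glc
theorem upc : UpcStmt := H37.upc drt H65.dbc
theorem u2f : U2fStmt := H69.u2f H75.lcg
theorem ldt : LdtStmt := H90.ldt upc u2f H26.bfn vpi
theorem lde : LdeStmt := H24.lde vpi H86.gsc drt H65.dbc H26.bfn H52.fun_
theorem ldn : LdnStmt := H24.ldn vpi H86.gsc H5.lt3 orb H26.bfn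

theorem ld6 : Ld6Stmt :=
  H69.ld6 vpi H86.gsc (LeoG.H9.ld5 (LeoK.H52.ld5 LeoK.H52.loc)) H52.fun_ H26.bfn

theorem denb_all : DenbStmt :=
  denb ld6 ldt lde ldn H86.crd vpi H26.bfn

theorem mrp : MrpStmt := H59.mrp vpi (H59.sq2 vpi) H26.bfn

theorem mrb : MrbStmt := H89.mrb mrp H86.crd vpi H75.lcg H26.bfn

end Pool.Agent.LeoD.H68
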